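import Pool.Agent.V1137.Pm2

/-!
# One prime with index in a given set as a Goldbach summand of several even numbers

The problem asks for representations `2 n = p + q` with primes `p`, `q` and a prime index `π(p)`. Here
the index runs through a set `K` which meets the clusters of primes: of the indices
`k, k + 1, ..., k + M`, at least one belongs to `K` whenever `k` is large and
`p_{k+M} ≤ p_k + ε log p_k`. For most vectors `(n_1, ..., n_r)` without a local obstruction ONE prime
`p` with index in `K` is a summand of all the `2 n_j`, and the number of these primes `p` has the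
expected order of magnitude.

All syndetic sets `K` have the property, and also, for any finite colouring of the indices, the set
of the `k` such that at least `m` primes within `ε log p_k` of `p_k` have an index of the colour of
`k`.

The coloured theorem of the Maynard-Tao type of the starting library (`Pool.Agent.TH882`) and the
theorem `sys_pm` of `Pool.Agent.V1137` on systems at the primes of a set which is dense in most
residue classes are used.
-/

set_option autoImplicit false

open Finset Filter Topology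

namespace Pool.Agent.Results.MP_5d7b92_nt.CommonSummands

/-- The `k`-th prime: `P 1 = 2`, `P 2 = 3`, `P 3 = 5`, and so on. -/
noncomputable def P (k : ℕ) : ℕ := Nat.nth Nat.Prime (k - 1)

/-- `K` meets the clusters of primes: there are `M` and `ε > 0` such that for all large `k` with
`p_{k+M} ≤ p_k + ε log p_k` one of the indices `k, k + 1, ..., k + M` belongs to `K`. -/
def MeetsClusters (K : Set ℕ) : Prop := ∃ (M : ℕ) (ε : ℝ), 0 < ε ∧ ∃ k₀ : ℕ, ∀ k : ℕ, k₀ ≤ k →
  (P (k + M) : ℝ) ≤ P k + ε * Real.log (P k) → ∃ i ≤ M, k + i ∈ K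

/-- Every block of `M` consecutive positive integers contains an element of `K`. -/
def Syndetic (M : ℕ) (K : Set ℕ) : Prop := ∀ j : ℕ, 1 ≤ j → ∃ i < M, j + i ∈ K

/-- The indices `k` such that at least `m` other primes within `ε log p_k` of `p_k` have an index of
the colour of `k`. -/
def Coloured {s : ℕ} (χ : ℕ → Fin s) (m : ℕ) (ε : ℝ) : Set ℕ :=
  {k : ℕ | ∃ S : Finset ℕ, S.card = m ∧ ∀ k' ∈ S, 1 ≤ k' ∧ k' ≠ k ∧ χ k' = χ k ∧
    |(P k' : ℝ) - P k| ≤ ε * Real.log (P k)}

/-- For every prime `l` there is an integer `y` such that `l` divides none of the numbers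
`y, 2 n_1 - y, ..., 2 n_r - y`. -/
def NoObstruction {r : ℕ} (n : Fin r → ℕ) : Prop :=
  ∀ l : ℕ, l.Prime → ∃ y : ℤ, ¬ (l : ℤ) ∣ y ∧ ∀ j, ¬ (l : ℤ) ∣ 2 * n j - y

open Classical in
/-- The primes `p ≤ x` with index `π(p)` in `K` such that `p < 2 n_j` and `2 n_j - p` is prime for
all `j`. -/
noncomputable def summands {r : ℕ} (K : Set ℕ) (n : Fin r → ℕ) (x : ℕ) : Finset ℕ :=
  (Icc 1 x).filter (fun p => p.Prime ∧ Nat.primeCounting p ∈ K ∧
    ∀ j, p < 2 * n j ∧ (2 * n j - p).Prime)

open Classical in
/-- The vectors with `1 ≤ n_j ≤ L x` without obstruction and with fewer than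
`c x / (log x) ^ (r + 1)` such primes. -/
noncomputable def exceptions (r : ℕ) (K : Set ℕ) (c : ℝ) (L x : ℕ) : Finset (Fin r → ℕ) :=
  (Fintype.piFinset (fun _ : Fin r => Icc 1 (L * x))).filter (fun n => NoObstruction n ∧
    ((summands K n x).card : ℝ) < c * (x / Real.log x ^ (r + 1)))

lemma P_prime (k : ℕ) : (P k).Prime := Nat.prime_nth_prime _

lemma P_mono {a b : ℕ} (h : a ≤ b) : P a ≤ P b :=
  (Nat.nth_monotone Nat.infinite_setOfPred_prime) (by omega)

/-- `π(p_k) = k` -/
lemma pi_P {k : ℕ} (hk : 1 ≤ k) : Nat.primeCounting (P k) = k := by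
  unfold Nat.primeCounting Nat.primeCounting' P
  rw [Nat.count_succ, if_pos (Nat.prime_nth_prime _), Nat.count_nth_of_infinite
    Nat.infinite_setOfPred_prime]
  omega

/-- `p_k ≤ v` if `k ≤ π(v)` -/
lemma P_le {k v : ℕ} (hk : 1 ≤ k) (h : k ≤ Nat.primeCounting v) : P k ≤ v := by
  by_contra hcon
  push Not at hcon
  have h1 : Nat.primeCounting v < k := by
    unfold Nat.primeCounting Nat.primeCounting'
    have h2 : Nat.count Nat.Prime (v + 1) ≤ Nat.count Nat.Prime (P k) :=
      Nat.count_monotone _ (by omega)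
    have h3 : Nat.count Nat.Prime (P k) = k - 1 := by
      unfold P
      exact Nat.count_nth_of_infinite Nat.infinite_setOfPred_prime _
    omega
  omega

/-- `u ≤ p_k` if `π(u - 1) < k` -/
lemma le_P {k u : ℕ} (h : Nat.count Nat.Prime u < k) : u ≤ P k := by
  by_contra hcon
  push Not at hcon
  have h2 : Nat.count Nat.Prime (P k + 1) ≤ Nat.count Nat.Prime u :=
    Nat.count_monotone _ (by omega)
  have h3 : Nat.primeCounting (P k) = k := pi_P (by omega)
  unfold Nat.primeCounting Nat.primeCounting' at h3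
  omega

lemma card_primes (u v : ℕ) (huv : u ≤ v) :
    ((Icc u v).filter Nat.Prime).card + Nat.count Nat.Prime u = Nat.primeCounting v := by
  unfold Nat.primeCounting Nat.primeCounting'
  rw [Nat.count_eq_card_filter_range, Nat.count_eq_card_filter_range]
  rw [← card_union_of_disjoint]
  · congr 1
    ext q
    simp only [mem_union, mem_filter, mem_Icc, mem_range]
    constructor
    · rintro (⟨⟨h1, h2⟩, h3⟩ | ⟨h1, h2⟩)
      · exact ⟨by omega, h3⟩
      · exact ⟨by omega, h2⟩
    · rintro ⟨h1, h2⟩
      by_cases h : u ≤ q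
      · exact Or.inl ⟨⟨h, by omega⟩, h2⟩
      · exact Or.inr ⟨by omega, h2⟩
  · rw [disjoint_left]
    intro q hq hq'
    rw [mem_filter, mem_Icc] at hq
    rw [mem_filter, mem_range] at hq'
    omega

open Pool.Agent.V1137.Unav in
lemma meets (K : Set ℕ) (hK : MeetsClusters K) : ∃ (M : ℕ) (ε : ℝ), 0 < ε ∧
    Meets M ε {q : ℕ | Nat.primeCounting q ∈ K} := by
  obtain ⟨M, ε, hε, k₀, h⟩ := hK
  refine ⟨M + 1, ε, hε, P (k₀ + 1) + 1, fun u v hu hv hc => ?_⟩
  have huv : u ≤ v := by
    by_contra hcon
    rw [Finset.Icc_eq_empty hcon, filter_empty, card_empty] at hc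
    omega
  have h1 := card_primes u v huv
  set k := Nat.count Nat.Prime u + 1 with hk
  have hk0 : k₀ ≤ k := by
    have h2 : Nat.count Nat.Prime (P (k₀ + 1) + 1) ≤ Nat.count Nat.Prime u :=
      Nat.count_monotone _ hu
    have h3 : Nat.primeCounting (P (k₀ + 1)) = k₀ + 1 := pi_P (by omega)
    unfold Nat.primeCounting Nat.primeCounting' at h3
    omega
  have hPk : u ≤ P k := le_P (by omega)
  have hPkM : P (k + M) ≤ v := P_le (by omega) (by omega)
  have hu0 : (0 : ℝ) < u := by
    have : 0 < u := by omega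
    exact_mod_cast this
  have hlog : Real.log u ≤ Real.log (P k) := Real.log_le_log hu0 (by exact_mod_cast hPk)
  obtain ⟨i, hi, hiK⟩ := h k hk0 (by
    have e1 : (P (k + M) : ℝ) ≤ v := by exact_mod_cast hPkM
    have e2 : (u : ℝ) ≤ P k := by exact_mod_cast hPk
    have e3 := mul_le_mul_of_nonneg_left hlog hε.le
    linarith)
  refine ⟨P (k + i), ?_, hPk.trans (P_mono (by omega)), (P_mono (by omega)).trans hPkM,
    P_prime _⟩
  change Nat.primeCounting (P (k + i)) ∈ K
  rw [pi_P (by omega)]
  exact hiK

lemma syndetic_meets (M : ℕ) (K : Set ℕ) (hK : Syndetic M K) : MeetsClusters K := by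
  refine ⟨M, 1, one_pos, 1, fun k hk _ => ?_⟩
  obtain ⟨i, hi, h⟩ := hK k hk
  exact ⟨i, hi.le, h⟩

lemma coloured_meets {s : ℕ} (χ : ℕ → Fin s) (m : ℕ) (ε : ℝ) (hε : 0 < ε) :
    MeetsClusters (Coloured χ m ε) := by
  classical
  refine ⟨s * m, ε, hε, 1, fun k hk hc => ?_⟩
  obtain ⟨c, -, hcard⟩ := exists_lt_card_fiber_of_mul_lt_card_of_maps_to (s := Icc k (k + s * m))
    (t := (univ : Finset (Fin s))) (f := χ) (n := m) (fun _ _ => mem_univ _) (by
      rw [card_univ, Fintype.card_fin, Nat.card_Icc]
      omega)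
  set F := (Icc k (k + s * m)).filter (fun a => χ a = c) with hF
  have hne : F.Nonempty := by
    rw [← card_pos]
    omega
  obtain ⟨a, ha⟩ := hne
  have haF := ha
  rw [hF, mem_filter, mem_Icc] at haF
  obtain ⟨⟨ha1, ha2⟩, hac⟩ := haF
  refine ⟨a - k, by omega, ?_⟩
  have hak : k + (a - k) = a := by omega
  rw [hak]
  have hm : m ≤ (F.erase a).card := by
    rw [card_erase_of_mem ha]
    omega
  obtain ⟨S, hS, hSc⟩ := exists_subset_card_eq hm
  refine ⟨S, hSc, fun b hb => ?_⟩
  have hb1 := hS hb
  rw [mem_erase, hF, mem_filter, mem_Icc] at hb1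
  obtain ⟨hba, ⟨hb2, hb3⟩, hbc⟩ := hb1
  refine ⟨by omega, hba, by rw [hbc, hac], ?_⟩
  have e1 : (P k : ℝ) ≤ P a := by exact_mod_cast P_mono ha1
  have e2 : (P a : ℝ) ≤ P (k + s * m) := by exact_mod_cast P_mono ha2
  have e3 : (P k : ℝ) ≤ P b := by exact_mod_cast P_mono hb2
  have e4 : (P b : ℝ) ≤ P (k + s * m) := by exact_mod_cast P_mono hb3
  have h0 : (0 : ℝ) < P k := by exact_mod_cast (P_prime k).pos
  have hlog := mul_le_mul_of_nonneg_left (Real.log_le_log h0 e1) hε.le
  rw [abs_le]
  constructor <;> linarith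

open Pool.Agent.V1137.Unav in
theorem main (K : Set ℕ) (hK : MeetsClusters K) (r L : ℕ) (κ : ℝ) (hκ : 0 < κ) :
    ∃ c : ℝ, 0 < c ∧ ∀ᶠ x : ℕ in atTop,
      ((exceptions r K c L x).card : ℝ) ≤ κ * (x : ℝ) ^ r := by
  classical
  obtain ⟨M, ε, hε, hM⟩ := meets K hK
  obtain ⟨δ, hδ, x₀, h⟩ := sys_pm (fun _ : Fin r => -1) (fun _ => Or.inr rfl)
    (fun _ => Polynomial.X) (fun _ => by simp) (fun _ => by simp)
    {q : ℕ | Nat.primeCounting q ∈ K} (PS_most M ε hε _ hM) (2 * L) κ hκ
  refine ⟨δ, hδ, ?_⟩
  rw [eventually_atTop]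
  refine ⟨x₀, fun x hx => le_trans ?_ ((h x hx).trans (le_of_eq ?_))⟩
  · apply Nat.cast_le.2
    apply card_le_card_of_injOn (fun c : Fin r → ℕ => fun j => 2 * c j)
    · intro c hc
      rw [mem_coe] at hc
      unfold exceptions at hc
      rw [mem_filter, Fintype.mem_piFinset] at hc
      apply mem_coe.2
      rw [mem_filter, Fintype.mem_piFinset]
      have hev : ∀ (n : ℤ) (j : Fin r), ((2 * c j : ℕ) : ℤ) + -1 * (Polynomial.X : Polynomial ℤ).eval n =
          2 * c j - n := by
        intro n j
        rw [Polynomial.eval_X]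
        push_cast
        ring
      refine ⟨fun j => ?_, ?_, ?_⟩
      · rw [Polynomial.natDegree_X, pow_one]
        have h2 := mem_Icc.1 (hc.1 j)
        have e1 : 2 * L * x = 2 * (L * x) := by ring
        have hgoal : 2 * c j ∈ Icc 1 (2 * L * x) := by
          rw [mem_Icc]
          omega
        exact hgoal
      · intro l hl
        obtain ⟨n, hn1, hn2⟩ := hc.2.1 l hl
        refine ⟨n, hn1, fun j hd => hn2 j ?_⟩
        rwa [hev] at hd
      · refine lt_of_le_of_lt ?_ hc.2.2
        apply Nat.cast_le.2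
        apply card_le_card
        intro q hq
        unfold Arg at hq
        unfold summands
        rw [mem_filter, mem_Icc] at hq ⊢
        obtain ⟨hq1, hqp, hqK, hqa⟩ := hq
        refine ⟨hq1, hqp, hqK, fun j => ?_⟩
        have h1 := hqa j
        rw [hev] at h1
        have h2 : ((2 * (c j : ℤ) - q).toNat : ℤ) = 2 * (c j : ℤ) - q := by
          have h3 := h1.pos
          omega
        have h4 : (q : ℤ) < 2 * c j := by
          have h3 := h1.pos
          omega
        have h5 : q < 2 * c j := by exact_mod_cast h4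
        refine ⟨h5, ?_⟩
        have h6 : (2 * (c j : ℤ) - q).toNat = 2 * c j - q := by omega
        rwa [h6] at h1
    · intro a _ b _ hab
      funext j
      have := congrFun hab j
      simp only at this
      omega
  · congr 1
    rw [Finset.prod_congr rfl fun j _ => by rw [Polynomial.natDegree_X, pow_one]]
    rw [prod_const, card_univ, Fintype.card_fin]

/-- **Common Goldbach summands with index in a given set.** (1) Let `K` be a set of indices which
meets the clusters of primes. For all `r`, `L` and `κ > 0` there is `c > 0` such that for all large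
`x`, for all vectors `(n_1, ..., n_r)` of integers `1 ≤ n_j ≤ L x` without local obstruction, with at
most `κ x ^ r` exceptions, there are at least `c x / (log x) ^ (r + 1)` primes `p ≤ x` with
`π(p) ∈ K` such that all the numbers `2 n_j - p` are primes.

(2) All syndetic sets meet the clusters of primes.

(3) For every finite colouring of the indices, every `m` and `ε > 0`, the set of the `k` such that at
least `m` other primes within `ε log p_k` of `p_k` have an index of the colour of `k` meets the
clusters of primes. -/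
theorem result :
    (∀ K : Set ℕ, MeetsClusters K → ∀ (r L : ℕ) (κ : ℝ), 0 < κ → ∃ c : ℝ, 0 < c ∧
      ∀ᶠ x : ℕ in atTop, ((exceptions r K c L x).card : ℝ) ≤ κ * (x : ℝ) ^ r) ∧
    (∀ (M : ℕ) (K : Set ℕ), Syndetic M K → MeetsClusters K) ∧
    ∀ (s : ℕ) (χ : ℕ → Fin s) (m : ℕ) (ε : ℝ), 0 < ε → MeetsClusters (Coloured χ m ε) :=
  ⟨fun K hK r L κ hκ => main K hK r L κ hκ, fun M K hK => syndetic_meets M K hK,
    fun _ χ m ε hε => coloured_meets χ m ε hε⟩

end Pool.Agent.Results.MP_5d7b92_nt.CommonSummands
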