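import Pool.Agent.V11251.DS.ArbC

/-!
# Palindromes as sums of two primes one of which has its index in an arbitrary set, for example in the set of primes

The analytic input (the laws of the random integers, second moments of the error for one form with arbitrary weights) is
in the starting files `Pool.Agent.H373R2.T7`, `Pool.Agent.W93`, `Pool.Agent.TH872`; new are the systems of several forms
with arbitrary weights and the passage to primes (`Pool.Agent.V11251.DS`).
-/

set_option autoImplicit false

namespace Pool.Agent.Results.MP_5d7b92_nt.PalindromesIndexSets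

open Finset

/-- `v` is a palindrome with exactly `k` digits in base `b`: the digit number `j` (which is
`v / b ^ j % b`) is equal to the digit number `k - 1 - j`, for all `j < k`. -/
def IsPalindrome (b k v : ℕ) : Prop :=
  b ^ (k - 1) ≤ v ∧ v < b ^ k ∧ ∀ j < k, v / b ^ j % b = v / b ^ (k - 1 - j) % b

open Classical in
/-- The palindromes with exactly `k` digits in base `b`. -/
noncomputable def pal (b k : ℕ) : Finset ℕ := (range (b ^ k)).filter (IsPalindrome b k)

open Classical in
/-- The sieve model of the indicator function of the primes: `1 / (log x ∏_{p ≤ z} (1 - 1 / p))` if `x ≥ 2` has no prime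
factor `≤ z`, and `0` if `x = 0` or if `x` has a prime factor `≤ z` (for `x = 1` the logarithm is replaced by `log 2`). -/
noncomputable def model (z x : ℕ) : ℝ :=
  if 1 ≤ x ∧ ∀ p : ℕ, p.Prime → p ≤ z → ¬ p ∣ x then
    1 / (Real.log (max x 2 : ℕ) * ∏ p ∈ (Icc 1 z).filter Nat.Prime, (1 - 1 / (p : ℝ))) else 0

open Classical in
/-- The primes `q ≤ X` whose index `π(q)` belongs to the set `J`. -/
noncomputable def indexed (J : Set ℕ) (X : ℕ) : Finset ℕ := (Icc 1 X).filter (fun q => q.Prime ∧ Nat.primeCounting q ∈ J)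

/-- The primes `q ≤ X` with `π(q) ∈ J` for which all the numbers `Y i - q` are primes. If `2 X < Y i`, then
`Y i = p i + q` is a representation as a sum of two distinct primes `p i = Y i - q > q`. -/
noncomputable def common {s : ℕ} (J : Set ℕ) (Y : Fin s → ℕ) (X : ℕ) : Finset ℕ :=
  (indexed J X).filter (fun q => ∀ i, (Y i - q).Prime)

/-- For the first `L` of the sets `J 0, J 1, ...` of indices and for all `X ≤ N`, the number of the primes `q ≤ X` with
`π(q) ∈ J l` for which all the `Y i - q` are primes is equal to the sum of the products of the models of `Y i - q` over the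
primes `q ≤ X` with `π(q) ∈ J l`, up to an error of at most `N / log ^ U N`. -/
def Good {s : ℕ} (z U L N : ℕ) (A : ℕ → Set ℕ) (Y : Fin s → ℕ) : Prop :=
  ∀ l < L, ∀ X ≤ N, |((common (A l) Y X).card : ℝ) - ∑ q ∈ indexed (A l) X, ∏ i, model z (Y i - q)| ≤ N / Real.log N ^ U

open Classical in
/-- Let `s`, bases `b i ≥ 2` and `κ i ≥ 1` (`i < s`), `B`, `T` and `U` be fixed, let `E` be a sufficiently large exponent,
let `N` be large, `log ^ E N ≤ z ≤ log ^ (E + 1) N`, let `k i` be lengths with `N / B ≤ b i ^ k i ≤ B N`, let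
`0 ≤ c i ≤ B N`, and let `A 0, ..., A (L - 1)`, `L ≤ log ^ T N`, be ARBITRARY sets of indices, for example the set of the
primes. Then all the vectors `(v 1, ..., v s)` of palindromes `v i` with exactly `k i` digits in base `b i`, with the
exception of a proportion of at most `1 / log ^ U N` of these vectors, have the following property, for all the sets `A l`
and all `X ≤ N`: the number of the primes `q ≤ X` with `π(q) ∈ A l` for which all the numbers `Y i - q`,
`Y i = c i + κ i v i`, are primes is the number predicted by the sieve model, up to an error of at most `N / log ^ U N`: the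
sum, over the primes `q ≤ X` with `π(q) ∈ A l` for which no `Y i - q` has a prime factor `≤ z`, of the products of the
`1 / (log (Y i - q) ∏_{p ≤ z} (1 - 1 / p))`. -/
theorem result (s : ℕ) (b : Fin s → ℕ) (hb : ∀ i, 2 ≤ b i) (κ : Fin s → ℕ) (hκ : ∀ i, 1 ≤ κ i) (B T U : ℕ) :
    ∃ E₀ : ℕ, ∀ E : ℕ, E₀ ≤ E → ∃ N₀ : ℕ, ∀ N, N₀ ≤ N → ∀ k : Fin s → ℕ, (∀ i, N ≤ B * b i ^ k i ∧ b i ^ k i ≤ B * N) →
      ∀ c : Fin s → ℕ, (∀ i, c i ≤ B * N) → ∀ z : ℕ, Real.log N ^ E ≤ z → (z : ℝ) ≤ Real.log N ^ (E + 1) →
      ∀ L : ℕ, (L : ℝ) ≤ Real.log N ^ T → ∀ A : ℕ → Set ℕ,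
      (((Fintype.piFinset fun i => pal (b i) (k i)).filter fun v => ¬ Good z U L N A (fun i => c i + κ i * v i)).card : ℝ) ≤
      ((Fintype.piFinset fun i => pal (b i) (k i)).card : ℝ) / Real.log N ^ U := by
  obtain ⟨E₀, h⟩ := Pool.Agent.V11251.DS.set_pal s b hb (fun i => (κ i : ℤ)) (fun _ => -1)
    (fun i => by have := hκ i; exact_mod_cast (by omega : κ i ≠ 0)) (fun _ => by norm_num) B T U
  refine ⟨E₀, fun E hE => ?_⟩
  obtain ⟨N₀, h1⟩ := h E hE
  refine ⟨N₀ + 1, fun N hN k hk c hc z hz1 hz2 L hL A => ?_⟩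
  have e1 : (Fintype.piFinset fun i => pal (b i) (k i)) =
      Fintype.piFinset (fun i => Pool.Agent.TH872.Mir.Pals (b i) (k i)) := by
    congr 1
  rw [e1]
  refine h1 N (by omega) k (fun i => ⟨(hk i).2, (hk i).1⟩) (fun i => (c i : ℤ)) (fun i => by rw [abs_of_nonneg (by positivity)]; exact_mod_cast hc i) z hz1 hz2 L hL (fun l => {n | n.Prime ∧ Nat.primeCounting n ∈ A l})
    (fun v => Good z U L N A (fun i => c i + κ i * v i)) (fun v hv => ?_)
  intro l hl X hX
  have h2 := hv l hl X hX
  have e2 : ∀ i, (((c i + κ i * v i : ℕ)) : ℤ) = (c i : ℤ) + (κ i : ℤ) * (((v i : ℕ) : ℕ) : ℤ) := fun i => by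
    push_cast; rfl
  rw [Pool.Agent.V11251.DS.DC_set' _ X z _ _ (indexed (A l) X) (common (A l) (fun i => c i + κ i * v i) X)
    (fun q => ∏ i, model z (c i + κ i * v i - q))] at h2
  · exact h2
  · intro n
    unfold indexed
    rw [mem_filter]
    exact Iff.rfl
  · intro n
    unfold common indexed
    rw [mem_filter, mem_filter, and_assoc]
    apply and_congr Iff.rfl
    apply and_congr Iff.rfl
    apply forall_congr'
    intro i
    rw [← e2]
    have h3 : (-1 * (n : ℤ) + ((c i + κ i * v i : ℕ) : ℤ)).toNat = c i + κ i * v i - n := by omega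
    rw [h3]
  · intro n _
    apply prod_congr rfl
    intro i _
    rw [← e2, Pool.Agent.V11251.DS.Mo_sub]
    rfl

end Pool.Agent.Results.MP_5d7b92_nt.PalindromesIndexSets
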