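import Pool.Agent.Results.MP_5d7b92_nt.NearPositiveProportion
import Pool.Agent.V11285.SS

/-!
# Goldbach representations with a prime-indexed summand of the members of sparse sequences

For `c > 1` and all `α > 0` outside a set of Hausdorff dimension less than `1`, for every `k ≥ 1`: for at least
`c₁ N / log log log log N` of the `n ≤ N` there is a prime `p < 2 m`, `m = ⌊α n ^ c⌋`, such that `2 m - p` is prime and
`p, π(p), π(π(p)), ..., π^k(p)` are all prime.
-/

set_option autoImplicit false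

namespace Pool.Agent.Results.MP_5d7b92_nt.SparseSequences

open Filter

/-- `m > 2` and there is `p < 2 m` such that `2 m - p` is prime and `p, π(p), π(π(p)), ..., π^k(p)` are prime. -/
def Rep (k m : ℕ) : Prop :=
  2 < m ∧ ∃ p : ℕ, p < 2 * m ∧ (∀ j ≤ k, (Nat.primeCounting^[j] p).Prime) ∧ (2 * m - p).Prime

/-- **The members of sparse sequences.** -/
theorem result (c : ℝ) (hc : 1 < c) :
    ∃ E : Set ℝ, dimH E < 1 ∧ ∀ α : ℝ, 0 < α → α ∉ E → ∀ k : ℕ, 1 ≤ k → ∃ c₁ : ℝ, 0 < c₁ ∧ ∀ᶠ N : ℕ in atTop,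
      c₁ * N / Real.log (Real.log (Real.log (Real.log N))) ≤
        ({n : ℕ | 1 ≤ n ∧ n ≤ N ∧ Rep k ⌊α * (n : ℝ) ^ c⌋₊}.ncard : ℝ) := by
  have hc0 : 0 < c := by linarith
  obtain ⟨E, hE, hs⟩ := Pool.Agent.V11285.SS.slow c hc Rep
  refine ⟨E, hE, fun α hα hαE k hk => ?_⟩
  obtain ⟨κ₀, hκ₀, h⟩ := NearPositiveProportion.result k hk
  have t1 : Tendsto (fun N : ℕ => Real.log (N : ℝ)) atTop atTop := Pool.Agent.V11285.SS.tendsto_logN
  have t2 : Tendsto (fun N : ℕ => Real.log (Real.log (N : ℝ))) atTop atTop := Real.tendsto_log_atTop.comp t1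
  have t3 : Tendsto (fun N : ℕ => Real.log (Real.log (Real.log (N : ℝ)))) atTop atTop :=
    Real.tendsto_log_atTop.comp t2
  have t4 : Tendsto (fun N : ℕ => Real.log (Real.log (Real.log (Real.log (N : ℝ))))) atTop atTop :=
    Real.tendsto_log_atTop.comp t3
  have h1 := hs α hα hαE k κ₀ (fun x : ℕ => Real.log (Real.log (Real.log (Real.log (x : ℝ))))) hκ₀
    (t4.eventually (eventually_gt_atTop 0)) (fun η hη => ?_) ?_
  · refine ⟨κ₀ / (8 * c), by positivity, ?_⟩
    filter_upwards [h1, Pool.Agent.V11285.SS.logs_X hα hc0, t4.eventually (eventually_gt_atTop 0),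
      (t4.comp (Pool.Agent.V11285.SS.tendsto_X hα hc0)).eventually (eventually_gt_atTop 0)] with N g1 g2 g3 g4
    refine le_trans ?_ g1
    have g5 := g2.2.2
    simp only [Function.comp_apply] at g4
    calc κ₀ / (8 * c) * N / Real.log (Real.log (Real.log (Real.log N)))
        = κ₀ / (4 * c) * N / (2 * Real.log (Real.log (Real.log (Real.log N)))) := by
          field_simp
          ring
      _ ≤ κ₀ / (4 * c) * N / Real.log (Real.log (Real.log (Real.log (⌊α * (N : ℝ) ^ c⌋₊ : ℕ)))) :=
          div_le_div_of_nonneg_left (by positivity) g4 g5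
  · filter_upwards [Pool.Agent.V11285.SS.log_le_pow η hη, t1.eventually (eventually_gt_atTop 0),
      t2.eventually (eventually_gt_atTop 0), t3.eventually (eventually_gt_atTop 0)] with x q1 q2 q3 q4
    have r1 := Real.log_le_sub_one_of_pos q2
    have r2 := Real.log_le_sub_one_of_pos q3
    have r3 := Real.log_le_sub_one_of_pos q4
    linarith
  · filter_upwards [h] with x hx
    refine hx.trans (le_of_eq ?_)
    rw [Nat.cast_inj]
    congr 1
    ext n
    simp only [Set.mem_ofPred_eq, Rep]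
    constructor
    · rintro ⟨q1, q2, q3⟩
      exact ⟨by omega, q2, q1, q3⟩
    · rintro ⟨_, q2, q1, q3⟩
      exact ⟨q1, q2, q3⟩

end Pool.Agent.Results.MP_5d7b92_nt.SparseSequences
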